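import Mathlib

namespace Pool.Agent.Results.MP_c28122_co.Classify

/-- `A` is `t`-independent -/
def Indep {G : Type} [AddCommGroup G] (t : ℕ) (A : Finset G) : Prop :=
  ∀ l : G → ℤ, ∑ a ∈ A, |l a| ≤ (t : ℤ) → ∑ a ∈ A, l a • a = 0 → ∀ a ∈ A, l a = 0

/-- arithmetic core, in the rotated coordinates with the sup norm -/
theorem core (m a b c d : ℤ) (hm : 0 < m) (h1 : m ≤ max |a| |b|)
    (h12 : max |a| |b| ≤ max |c| |d|) (hp : max |c| |d| ≤ max |a + c| |b + d|)
    (hq : max |c| |d| ≤ max |a - c| |b - d|) (hdet : |a * d - b * c| < m * m + m) :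
    m * m ≤ |a * d - b * c| ∧ (|a * d - b * c| = m * m ∨
      (|a| = m ∧ |d| = m ∧ |a * d - b * c| = m * m + |b| * |c|) ∨
      (|b| = m ∧ |c| = m ∧ |a * d - b * c| = m * m + |a| * |d|)) := by
  -- reduce to `a = max |a| |b| > 0`
  wlog hab : |b| ≤ |a| generalizing a b c d
  · have := this b a d c (by rwa [max_comm]) (by rwa [max_comm, max_comm |d|])
      (by rwa [max_comm, max_comm |b + d|]) (by rwa [max_comm, max_comm |b - d|])
      (by rw [← abs_neg]; convert hdet using 2; ring) (le_of_lt (not_le.1 hab))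
    have e : |b * c - a * d| = |a * d - b * c| := abs_sub_comm _ _
    rw [e] at this
    tauto
  wlog ha : 0 ≤ a generalizing a b c d
  · have := this (-a) (-b) (-c) (-d) (by simpa using h1) (by simpa using h12)
      (by rw [← neg_add, ← neg_add]; simpa only [abs_neg] using hp)
      (by rw [show -a - -c = -(a - c) by ring, show -b - -d = -(b - d) by ring]
          simpa only [abs_neg] using hq)
      (by simpa using hdet) (by simpa using hab) (by omega)
    simpa using this
  wlog hb : 0 ≤ b generalizing a b c d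
  · have := this a (-b) c (-d) (by simpa using h1) (by simpa using h12)
      (by rw [← neg_add]; simpa only [abs_neg] using hp)
      (by rw [show -b - -d = -(b - d) by ring]; simpa only [abs_neg] using hq)
      (by rw [show a * -d - -b * c = -(a * d - b * c) by ring, abs_neg]; exact hdet)
      (by simpa using hab) ha (by omega)
    rw [show a * -d - -b * c = -(a * d - b * c) by ring] at this
    simpa only [abs_neg] using this
  wlog hd : 0 ≤ d generalizing c d
  · have := this (-c) (-d) (by simpa using h12)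
      (by rw [← sub_eq_add_neg, ← sub_eq_add_neg]; simpa only [abs_neg] using hq)
      (by rw [sub_neg_eq_add, sub_neg_eq_add]; simpa only [abs_neg] using hp)
      (by rw [show a * -d - b * -c = -(a * d - b * c) by ring, abs_neg]; exact hdet) (by omega)
    rw [show a * -d - b * -c = -(a * d - b * c) by ring] at this
    simpa only [abs_neg] using this
  rw [abs_of_nonneg ha, abs_of_nonneg hb] at *
  rw [abs_of_nonneg hd] at *
  rw [max_eq_left hab] at h1 h12
  rcases le_total |c| d with hcd | hcd
  · rw [max_eq_right hcd] at h12 hp hq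
    have hbc : b = 0 ∨ c ≤ 0 := by
      by_contra hn
      push Not at hn
      have : |c| = c := abs_of_pos hn.2
      rcases le_max_iff.1 hq with h | h <;> rcases le_abs.1 h with h | h <;> omega
    have hbc' : b * c = -(b * |c|) := by
      rcases hbc with h | h
      · simp [h]
      · rw [abs_of_nonpos h]; ring
    have hn : 0 ≤ b * |c| := mul_nonneg hb (abs_nonneg _)
    have had : m * m ≤ a * d := by nlinarith
    have e : |a * d - b * c| = a * d + b * |c| := by
      rw [hbc', abs_of_nonneg (by nlinarith)]; ring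
    rw [e] at hdet ⊢
    have hdm : d = m := by
      by_contra hne
      have : m + 1 ≤ d := by omega
      nlinarith
    have ham : a = m := by omega
    subst hdm ham
    exact ⟨by omega, Or.inr (Or.inl ⟨rfl, rfl, rfl⟩)⟩
  · rw [max_eq_left hcd] at h12 hp hq
    rcases eq_or_lt_of_le hcd with heq | hlt
    · -- `|c| = d`: same as the first case
      have hbc : b = 0 ∨ c ≤ 0 := by
        by_contra hn
        push Not at hn
        have : |c| = c := abs_of_pos hn.2
        rcases le_max_iff.1 hq with h | h <;> rcases le_abs.1 h with h | h <;> omega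
      have hbc' : b * c = -(b * |c|) := by
        rcases hbc with h | h
        · simp [h]
        · rw [abs_of_nonpos h]; ring
      have hn : 0 ≤ b * |c| := mul_nonneg hb (abs_nonneg _)
      have had : m * m ≤ a * d := by nlinarith
      have e : |a * d - b * c| = a * d + b * |c| := by
        rw [hbc', abs_of_nonneg (by nlinarith)]; ring
      rw [e] at hdet ⊢
      have hdm : d = m := by
        by_contra hne
        have : m + 1 ≤ d := by omega
        nlinarith
      have ham : a = m := by omega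
      subst hdm ham
      exact ⟨by omega, Or.inr (Or.inl ⟨rfl, rfl, rfl⟩)⟩
    · have hB : 0 ≤ |c| := abs_nonneg c
      have key : |c| ≤ b + d ∧ c < 0 ∨ d = 0 ∧ b = a ∧ |c| = a := by
        rcases le_or_gt 0 c with hc | hc
        · have : |c| = c := abs_of_nonneg hc
          rcases le_max_iff.1 hq with h | h <;> rcases le_abs.1 h with h | h <;> omega
        · have : |c| = -c := abs_of_neg hc
          rcases le_max_iff.1 hp with h | h <;> rcases le_abs.1 h with h | h <;> omega
      have e : |a * d - b * c| = a * d + b * |c| := by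
        rcases key with ⟨_, hc⟩ | ⟨h0, _, _⟩
        · rw [abs_of_neg hc, abs_of_nonneg (by nlinarith)]; ring
        · subst h0; simp [abs_mul, abs_of_nonneg hb]
      have hs : |c| ≤ b + d := by omega
      rw [e] at hdet ⊢
      generalize |c| = B at *
      have l1 : a * B ≤ a * d + b * B := by nlinarith
      have hBm : B = m := by
        by_contra hne
        have : m + 1 ≤ B := by omega
        nlinarith
      have ham : a = m := by omega
      subst hBm ham
      have : b + d = a := by
        by_contra hne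
        have : a + 1 ≤ b + d := by omega
        nlinarith
      have e2 : a * d + b * a = a * a := by rw [← this]; ring
      exact ⟨by omega, Or.inl e2⟩

theorem rot (u v : ℤ) : max |u + v| |u - v| = |u| + |v| := by
  rcases le_total 0 u with hu | hu <;> rcases le_total 0 v with hv | hv <;>
    rcases le_total 0 (u + v) with h1 | h1 <;> rcases le_total 0 (u - v) with h2 | h2 <;>
    simp only [abs_of_nonneg, abs_of_nonpos, *] <;> omega

/-- no lattice of index `n` with odd content avoids the ball, outside the listed cases -/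
theorem lattice (s n : ℤ) (hs : 0 < s) (hn : 0 < n) (hlt : n < 2 * s * s + s)
    (P : ℤ → ℤ → Prop) (hadd : ∀ a b c d, P a b → P c d → P (a + c) (b + d))
    (hsub : ∀ a b c d, P a b → P c d → P (a - c) (b - d))
    (hmin : ∀ u v, P u v → |u| + |v| < 2 * s → u = 0 ∧ v = 0)
    (N : ℕ) : ∀ a b c d : ℤ, |a| + |b| + |c| + |d| ≤ N → P a b → P c d → |a * d - b * c| = n →
      ¬ (2 ∣ a ∧ 2 ∣ b ∧ 2 ∣ c ∧ 2 ∣ d) →
      2 * s * s ≤ n ∧ (n = 2 * s * s ∨ (n % 2 = 0 ∧ ¬ (s % 2 = 1 ∧ n % 4 = 0))) := by
  induction N with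
  | zero =>
    intro a b c d h _ _ hd _
    have := abs_nonneg a; have := abs_nonneg b; have := abs_nonneg c; have := abs_nonneg d
    have ha : a = 0 := abs_eq_zero.1 (by omega)
    have hb : b = 0 := abs_eq_zero.1 (by omega)
    subst ha hb
    simp at hd
    omega
  | succ N ih =>
    intro a b c d h p1 p2 hd hodd
    wlog hle : |a| + |b| ≤ |c| + |d| generalizing a b c d
    · exact this c d a b (by omega) p2 p1 (by rw [← hd, ← abs_neg]; congr 1; ring)
        (by tauto) (by omega)
    by_cases q1 : |a + c| + |b + d| < |c| + |d|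
    · refine ih a b (a + c) (b + d) (by push_cast at h; omega) p1 (hadd _ _ _ _ p1 p2)
        (by rw [← hd]; congr 1; ring) (by omega)
    by_cases q2 : |a - c| + |b - d| < |c| + |d|
    · refine ih a b (a - c) (b - d) (by push_cast at h; omega) p1 (hsub _ _ _ _ p1 p2)
        (by rw [← hd, ← abs_neg]; congr 1; ring) (by omega)
    have m1 : 2 * s ≤ |a| + |b| := by
      by_contra hc
      obtain ⟨rfl, rfl⟩ := hmin a b p1 (by omega)
      simp at hd
      omega
    have e : |(a + b) * (c - d) - (a - b) * (c + d)| = 2 * n := by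
      rw [show (a + b) * (c - d) - (a - b) * (c + d) = -2 * (a * d - b * c) by ring, abs_mul, hd]
      norm_num
    have := core (2 * s) (a + b) (a - b) (c + d) (c - d) (by omega) (by rwa [rot])
      (by rwa [rot, rot])
      (by rw [rot, show a + b + (c + d) = (a + c) + (b + d) by ring,
            show a - b + (c - d) = (a + c) - (b + d) by ring, rot]; omega)
      (by rw [rot, show a + b - (c + d) = (a - c) + (b - d) by ring,
            show a - b - (c - d) = (a - c) - (b - d) by ring, rot]; omega)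
      (by rw [e]; nlinarith)
    rw [e] at this
    obtain ⟨t1, t2⟩ := this
    refine ⟨by nlinarith, ?_⟩
    have fin : ∀ p q : ℤ, 2 * n = 2 * s * (2 * s) + 2 * p * (2 * q) →
        (s % 2 = 1 → p % 2 = 1 → q % 2 = 1 → False) →
        n % 2 = 0 ∧ ¬ (s % 2 = 1 ∧ n % 4 = 0) := by
      intro p q h1 h2
      have h3 : n = 2 * (s * s + p * q) := by nlinarith
      refine ⟨by omega, fun ⟨h4, h5⟩ => ?_⟩
      have h6 : (s * s) % 2 = 1 := by simp [Int.mul_emod, h4]
      have h7 : (p * q) % 2 = 1 := by omega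
      have hp : p % 2 = 1 := by
        rcases Int.emod_two_eq_zero_or_one p with h | h
        · simp [Int.mul_emod, h] at h7
        · exact h
      have hq : q % 2 = 1 := by
        rcases Int.emod_two_eq_zero_or_one q with h | h
        · simp [Int.mul_emod, h] at h7
        · exact h
      exact h2 h4 hp hq
    have c1 := abs_choice (a + b)
    have c2 := abs_choice (a - b)
    have c3 := abs_choice (c + d)
    have c4 := abs_choice (c - d)
    clear h hle q1 q2 m1 hlt t1
    rcases t2 with t2 | ⟨e1, e2, e3⟩ | ⟨e1, e2, e3⟩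
    · left; nlinarith
    · right
      obtain ⟨p, hp⟩ : ∃ p, |a - b| = 2 * p := ⟨|a - b| / 2, by omega⟩
      obtain ⟨q, hq⟩ : ∃ q, |c + d| = 2 * q := ⟨|c + d| / 2, by omega⟩
      rw [hp, hq] at e3
      exact fin p q e3 (fun _ _ _ => hodd (by omega))
    · right
      obtain ⟨p, hp⟩ : ∃ p, |a + b| = 2 * p := ⟨|a + b| / 2, by omega⟩
      obtain ⟨q, hq⟩ : ∃ q, |c - d| = 2 * q := ⟨|c - d| / 2, by omega⟩
      rw [hp, hq] at e3
      exact fin p q e3 (fun _ _ _ => hodd (by omega))

theorem indep_sub {G : Type} [AddCommGroup G] (t : ℕ) (A B : Finset G) (h : B ⊆ A)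
    (hA : Indep t A) : Indep t B := by
  classical
  intro l h1 h2 a ha
  have := hA (fun x => if x ∈ B then l x else 0)
    (by
      rw [← Finset.sum_subset h (f := fun x => |if x ∈ B then l x else 0|)
        (by intro x _ hx; simp [hx])]
      rwa [Finset.sum_congr rfl (g := fun x => |l x|) (by intro x hx; simp [hx])])
    (by
      rw [← Finset.sum_subset h (f := fun x => (if x ∈ B then l x else 0) • x)
        (by intro x _ hx; simp [hx])]
      rwa [Finset.sum_congr rfl (g := fun x => l x • x) (by intro x hx; simp [hx])])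
    a (h ha)
  simpa [ha] using this

theorem indep_pair {G : Type} [AddCommGroup G] [DecidableEq G] (t : ℕ) (x y : G) (h : x ≠ y) :
    Indep t {x, y} ↔ ∀ u v : ℤ, |u| + |v| ≤ t → u • x + v • y = 0 → u = 0 ∧ v = 0 := by
  constructor
  · intro H u v h1 h2
    have := H (fun z => if z = x then u else v)
      (by rw [Finset.sum_pair h]; simpa [h.symm] using h1)
      (by rw [Finset.sum_pair h]; simpa [h.symm] using h2)
    have a := this x (by simp)
    have b := this y (by simp)
    simp [h.symm] at a b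
    exact ⟨a, b⟩
  · intro H l h1 h2 a ha
    rw [Finset.sum_pair h] at h1 h2
    have := H _ _ h1 h2
    rcases Finset.mem_insert.1 ha with rfl | ha
    · exact this.1
    · rw [Finset.mem_singleton.1 ha]; exact this.2

theorem pair_of_int (t n : ℕ) (X Y : ℤ) (ht : 2 ≤ t)
    (H : ∀ u v : ℤ, |u| + |v| ≤ t → (n : ℤ) ∣ u * X + v * Y → u = 0 ∧ v = 0) :
    ∃ A : Finset (ZMod n), Indep t A ∧ A.card = 2 := by
  have key : ∀ u v : ℤ, u • (X : ZMod n) + v • (Y : ZMod n) = 0 → (n : ℤ) ∣ u * X + v * Y := by
    intro u v h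
    rw [← ZMod.intCast_zmod_eq_zero_iff_dvd]
    push_cast
    simpa using h
  have hne : (X : ZMod n) ≠ (Y : ZMod n) := by
    intro h
    have := H 1 (-1) (by norm_num; omega) (key _ _ (by simp [h]))
    omega
  refine ⟨{(X : ZMod n), (Y : ZMod n)}, (indep_pair t _ _ hne).2 ?_, Finset.card_pair hne⟩
  intro u v h1 h2
  exact H u v h1 (key u v h2)

theorem small_mult (n w : ℤ) (hn : 0 < n) (h : n ∣ w) (hw : |w| < 2 * n) :
    w = 0 ∨ w = n ∨ w = -n := by
  obtain ⟨k, rfl⟩ := h
  have := abs_lt.1 hw
  have h1 : k < 2 := by nlinarith [this.2]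
  have h2 : -2 < k := by nlinarith [this.1]
  interval_cases k <;> simp

theorem zero_case (s j u v : ℤ) (hs : 0 < s) (hj : 0 < j) (hjs : j ≤ s)
    (hc : IsCoprime (s + j) (s - j)) (h : |u| + |v| < 2 * s)
    (e : u * (s + j) + v * (s - j) = 0) : u = 0 ∧ v = 0 := by
  have h1 : (s + j) ∣ v * (s - j) := ⟨-u, by linarith⟩
  obtain ⟨k, rfl⟩ := hc.dvd_of_dvd_mul_right h1
  have h2 : u = -(k * (s - j)) := by
    have : (s + j) * (u + k * (s - j)) = 0 := by linarith
    rcases mul_eq_zero.1 this with h | h <;> omega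
  subst h2
  rw [abs_neg, abs_mul, abs_mul, abs_of_nonneg (by omega : 0 ≤ s - j),
    abs_of_nonneg (by omega : 0 ≤ s + j)] at h
  have : |k| < 1 := by nlinarith [abs_nonneg k]
  have : k = 0 := by rw [abs_lt] at this; omega
  subst this
  simp

theorem has_pair (k n : ℕ) (hk : 1 ≤ k) (h : 2 * (k + 1) * (k + 1) ≤ n)
    (hc : 2 * (k + 1) * (k + 1) + (k + 1) ≤ n ∨ n = 2 * (k + 1) * (k + 1) ∨
      (n % 2 = 0 ∧ ¬ (k % 2 = 0 ∧ n % 4 = 0))) :
    ∃ A : Finset (ZMod n), Indep (2 * k + 1) A ∧ A.card = 2 := by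
  have hK : (1 : ℤ) ≤ k := by exact_mod_cast hk
  have hN : 2 * ((k : ℤ) + 1) * (k + 1) ≤ n := by exact_mod_cast h
  by_cases big : 2 * (k + 1) * (k + 1) + (k + 1) ≤ n
  · have hB : 2 * ((k : ℤ) + 1) * (k + 1) + (k + 1) ≤ n := by exact_mod_cast big
    refine pair_of_int _ n ((k : ℤ) + 2) ((k : ℤ) + 1) (by omega) ?_
    intro u v h1 h2
    push_cast at h1
    have b : |u * ((k : ℤ) + 2) + v * (k + 1)| < n := by
      refine lt_of_le_of_lt (abs_add_le _ _) ?_
      rw [abs_mul, abs_mul, abs_of_nonneg (by omega : (0 : ℤ) ≤ k + 2),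
        abs_of_nonneg (by omega : (0 : ℤ) ≤ k + 1)]
      nlinarith [abs_nonneg u, abs_nonneg v]
    have e := Int.eq_zero_of_abs_lt_dvd h2 b
    have hv : v = -((u + v) * (-(k + 2 : ℤ))) := by linarith
    have hu : u = (u + v) * (-(k + 1 : ℤ)) := by linarith
    generalize u + v = w at hu hv
    subst hu hv
    rw [abs_neg, abs_mul, abs_mul, abs_neg, abs_neg, abs_of_nonneg (by omega : (0 : ℤ) ≤ k + 2),
      abs_of_nonneg (by omega : (0 : ℤ) ≤ k + 1)] at h1
    have : |w| < 1 := by nlinarith [abs_nonneg w]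
    have : w = 0 := by rw [abs_lt] at this; omega
    subst this
    simp
  · have hev : n % 2 = 0 ∧ ¬ (k % 2 = 0 ∧ n % 4 = 0) := by
      rcases hc with hc | hc | hc
      · exact absurd hc big
      · refine ⟨by rw [hc, mul_assoc]; omega, fun ⟨h1, h2⟩ => ?_⟩
        obtain ⟨j, rfl⟩ : ∃ j, k = 2 * j := ⟨k / 2, by omega⟩
        have : n = 4 * (2 * j * j + 2 * j) + 2 := by rw [hc]; ring
        omega
      · exact hc
    have hB : (n : ℤ) < 2 * ((k : ℤ) + 1) * (k + 1) + (k + 1) := by exact_mod_cast not_le.1 big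
    rcases Nat.mod_two_eq_zero_or_one k with hk2 | hk2
    · obtain ⟨j, rfl⟩ : ∃ j, k = 2 * j := ⟨k / 2, by omega⟩
      push_cast at hK hN hB
      refine pair_of_int _ n ((2 * j + 1 : ℤ) + 2) ((2 * j + 1 : ℤ) - 2) (by omega) ?_
      intro u v h1 h2
      push_cast at h1
      have hj : (1 : ℤ) ≤ j := by omega
      have b : |u * ((2 * j + 1 : ℤ) + 2) + v * ((2 * j + 1 : ℤ) - 2)| < 2 * n := by
        refine lt_of_le_of_lt (abs_add_le _ _) ?_
        rw [abs_mul, abs_mul, abs_of_nonneg (by omega : (0 : ℤ) ≤ 2 * j + 1 + 2),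
          abs_of_nonneg (by omega : (0 : ℤ) ≤ 2 * j + 1 - 2)]
        nlinarith [abs_nonneg u, abs_nonneg v]
      have main : ∀ u v : ℤ, |u| + |v| ≤ 2 * (2 * j) + 1 →
          u * ((2 * j + 1 : ℤ) + 2) + v * ((2 * j + 1 : ℤ) - 2) = n → False := by
        intro u v h1 e
        have e' : (n : ℤ) = 2 * (j * (u + v)) + 3 * u - v := by linarith
        obtain ⟨p, hp⟩ : ∃ p, u + v = 2 * p := ⟨(u + v) / 2, by omega⟩
        obtain ⟨q, hq⟩ : ∃ q, u - v = 2 * q := ⟨(u - v) / 2, by omega⟩
        have h4 : u ≤ |u| := le_abs_self u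
        have h5 : v ≤ |v| := le_abs_self v
        have h6 : -v ≤ |v| := neg_le_abs v
        have hpb : p ≤ 2 * j := by omega
        have hqb : q ≤ 2 * j := by omega
        have e2 : (n : ℤ) = 2 * ((2 * j + 1) * p) + 4 * q := by
          have hu : u = p + q := by omega
          have hv : v = p - q := by omega
          subst hu hv
          linarith
        have hp2 : p = 2 * j := by
          by_contra hne
          have : p ≤ 2 * j - 1 := by omega
          nlinarith
        subst hp2
        have : (n : ℤ) = 4 * ((2 * j + 1) * j + q) := by linarith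
        omega
      rcases small_mult n _ (by nlinarith) h2 b with e | e | e
      · refine zero_case (2 * j + 1) 2 u v (by omega) (by omega) (by omega) ?_ (by omega) e
        exact ⟨j * j, -(j * j + 2 * j + 1), by ring⟩
      · exact (main u v h1 e).elim
      · exact (main (-u) (-v) (by simpa using h1) (by linarith)).elim
    · obtain ⟨j, rfl⟩ : ∃ j, k = 2 * j + 1 := ⟨k / 2, by omega⟩
      push_cast at hK hN hB
      refine pair_of_int _ n ((2 * j + 2 : ℤ) + 1) ((2 * j + 2 : ℤ) - 1) (by omega) ?_
      intro u v h1 h2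
      push_cast at h1
      have hj : (0 : ℤ) ≤ j := by omega
      have b : |u * ((2 * j + 2 : ℤ) + 1) + v * ((2 * j + 2 : ℤ) - 1)| < 2 * n := by
        refine lt_of_le_of_lt (abs_add_le _ _) ?_
        rw [abs_mul, abs_mul, abs_of_nonneg (by omega : (0 : ℤ) ≤ 2 * j + 2 + 1),
          abs_of_nonneg (by omega : (0 : ℤ) ≤ 2 * j + 2 - 1)]
        nlinarith [abs_nonneg u, abs_nonneg v]
      have main : ∀ u v : ℤ, |u| + |v| ≤ 2 * (2 * j + 1) + 1 →
          u * ((2 * j + 2 : ℤ) + 1) + v * ((2 * j + 2 : ℤ) - 1) = n → False := by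
        intro u v h1 e
        have e' : (n : ℤ) = 2 * (j * (u + v)) + 3 * u + v := by linarith
        have c1 := abs_choice u
        have c2 := abs_choice v
        have h3 : |u| + |v| ≤ 2 * (2 * j + 1) := by omega
        clear c1 c2
        have h4 : u ≤ |u| := le_abs_self u
        have h5 : v ≤ |v| := le_abs_self v
        nlinarith [abs_nonneg u, abs_nonneg v]
      rcases small_mult n _ (by nlinarith) h2 b with e | e | e
      · refine zero_case (2 * j + 2) 1 u v (by omega) (by omega) (by omega) ?_ (by omega) e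
        exact ⟨-(j : ℤ), j + 1, by ring⟩
      · exact (main u v h1 e).elim
      · exact (main (-u) (-v) (by simpa using h1) (by linarith)).elim

theorem no_pair (k n : ℕ) (hn : 0 < n) (hlt : n < 2 * (k + 1) * (k + 1) + (k + 1))
    (x y : ZMod n) (hxy : x ≠ y) (H : Indep (2 * k + 1) {x, y}) :
    2 * (k + 1) * (k + 1) ≤ n ∧
      (n = 2 * (k + 1) * (k + 1) ∨ (n % 2 = 0 ∧ ¬ (k % 2 = 0 ∧ n % 4 = 0))) := by
  rw [indep_pair _ _ _ hxy] at H
  obtain ⟨X, rfl⟩ := ZMod.intCast_surjective x
  obtain ⟨Y, rfl⟩ := ZMod.intCast_surjective y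
  have hg : 0 < Int.gcd X Y := by
    rw [Int.gcd_pos_iff]
    by_contra hc
    push Not at hc
    exact hxy (by rw [hc.1, hc.2])
  obtain ⟨g, X', Y', _, hco, rfl, rfl⟩ := Int.exists_gcd_one' hg
  obtain ⟨al, be, hab⟩ := Int.isCoprime_iff_gcd_eq_one.2 hco
  have := lattice ((k : ℤ) + 1) n (by omega) (by omega) (by exact_mod_cast hlt)
    (fun u v => u • ((X' * g : ℤ) : ZMod n) + v • ((Y' * g : ℤ) : ZMod n) = 0)
    (by intro a b c d h1 h2; rw [add_smul, add_smul]; linear_combination h1 + h2)
    (by intro a b c d h1 h2; rw [sub_smul, sub_smul]; linear_combination h1 - h2)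
    (by intro u v h1 h2; exact H u v (by push_cast; omega) h1)
    (|Y'| + |-X'| + |n * al| + |n * be|).toNat Y' (-X') (n * al) (n * be) (by omega)
    (by simp; ring) (by simp)
    (by rw [show Y' * (n * be) - -X' * (n * al) = n * (al * X' + be * Y') by ring, hab]; simp)
    (by
      rintro ⟨⟨p, hp⟩, ⟨q, hq⟩, _, _⟩
      have : X' = -(2 * q) := by omega
      subst this hp
      have : 2 * (be * p - al * q) = 1 := by linarith
      omega)
  obtain ⟨a, b⟩ := this
  refine ⟨by exact_mod_cast a, ?_⟩
  rcases b with b | b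
  · left; exact_mod_cast b
  · right; omega

theorem result (t n : ℕ) (ht : 3 ≤ t) (hodd : Odd t) (hn : 0 < n) :
    IsGreatest {m : ℕ | ∃ A : Finset (ZMod n), Indep t A ∧ A.card = m} 1 ↔
      (t + 1 ≤ n ∧ n ≤ t ^ 2 / 2 + t) ∨
      (t ^ 2 / 2 + t + 2 ≤ n ∧ n ≤ t ^ 2 / 2 + t + (t + 1) / 2 ∧
        (n % 2 = 1 ∨ (t % 4 = 1 ∧ n % 4 = 0))) := by
  obtain ⟨k, rfl⟩ := hodd
  have e1 : (2 * k + 1) ^ 2 / 2 = 2 * (k * k) + 2 * k := by
    have : (2 * k + 1) ^ 2 = 2 * (2 * (k * k) + 2 * k) + 1 := by ring
    omega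
  have e2 : 2 * (k + 1) * (k + 1) = 2 * (k * k) + 4 * k + 2 := by ring
  rw [e1]
  constructor
  · rintro ⟨⟨A, hA, hc⟩, hub⟩
    obtain ⟨x, rfl⟩ := Finset.card_eq_one.1 hc
    have h1 : 2 * k + 1 < n := by
      by_contra hle
      have := hA (fun _ => n) (by simp; omega) (by simp) x (by simp)
      omega
    by_contra hcon
    have := hub (has_pair k n (by omega) (by omega) (by omega))
    omega
  · intro h
    refine ⟨⟨{1}, ?_, by simp⟩, ?_⟩
    · intro l h1 h2 a ha
      rw [Finset.mem_singleton.1 ha]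
      simp only [Finset.sum_singleton, zsmul_eq_mul, mul_one] at h1 h2
      rw [ZMod.intCast_zmod_eq_zero_iff_dvd] at h2
      exact Int.eq_zero_of_abs_lt_dvd h2 (by push_cast at h1; omega)
    · rintro m ⟨A, hA, rfl⟩
      by_contra hlt
      obtain ⟨x, hx, y, hy, hxy⟩ := Finset.one_lt_card.1 (not_le.1 hlt)
      have := no_pair k n hn (by omega) x y hxy
        (indep_sub _ A _ (by intro z hz; simp at hz; rcases hz with rfl | rfl <;> assumption) hA)
      omega

end Pool.Agent.Results.MP_c28122_co.Classify
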